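import Pool.Agent.H916T.Defs

/-!
# Systems of algebraic characters

The eigenlines, for the action of the roots of unity, in the middle cohomology of the Fermat
varieties of degree `m` in characteristic `p` are indexed by multisets of residues modulo `m`. The
known properties of the set of those eigenlines which are spanned by classes of algebraic cycles
are collected in the following structure.
-/

namespace Pool.Agent.H916D

open Pool.Agent.H916T

/-- A system of algebraic characters in characteristic `p`: for each `m` prime to `p` a set `A m`
of Tate characters of degree `m` (a class of an algebraic cycle is a Tate class), containing all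
Tate characters of size four (divisors on Fermat surfaces), the standard characters of Aoki and the
pairs `{a, -a}`, closed under union and under removing a pair `{a, -a}` from a larger multiset, and
compatible with the change of the degree from `m` to a multiple `N * m`. -/
structure AlgebraicSystem (p : ℕ) (A : (m : ℕ) → Multiset (ZMod m) → Prop) : Prop where
  tate : ∀ (m : ℕ) (s : Multiset (ZMod m)), p.Coprime m → A m s → IsTate p m s
  surface : ∀ (m : ℕ) (s : Multiset (ZMod m)), p.Coprime m → SurfaceTate p m s → A m s
  standard : ∀ (q m : ℕ) (s : Multiset (ZMod m)), q.Prime → q ∣ m → p.Coprime m →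
    Standard q m s → A m s
  pair : ∀ (m : ℕ) (a : ZMod m), p.Coprime m → a ≠ 0 → A m {a, -a}
  join : ∀ (m : ℕ) (s t : Multiset (ZMod m)), p.Coprime m → A m s → A m t → A m (s + t)
  cancel : ∀ (m : ℕ) (a : ZMod m) (s : Multiset (ZMod m)), p.Coprime m → a ≠ 0 → s ≠ 0 →
    A m (a ::ₘ -a ::ₘ s) → A m s
  raise : ∀ (N m : ℕ) (s : Multiset (ZMod m)), 0 < m → 0 < N → p.Coprime (N * m) →
    (A m s ↔ A (N * m) (s.map fun a => ((N * a.val : ℕ) : ZMod (N * m))))

end Pool.Agent.H916D
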