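import Pool.Agent.H916T.Ordinary

/-!
Eigenspaces of distributions are at most one-dimensional.
-/

namespace Pool.Agent.H916D

open Finset Pool.Agent.H916R2 Pool.Agent.H916T

variable {m : ℕ}

/-- eigendistributions -/
structure ED {m : ℕ} (χ : DirichletCharacter ℂ m) (g : ZMod m → ℂ) : Prop where
  zero : g 0 = 0
  dist : ∀ q d : ℕ, q.Prime → q * d = m → ∀ a,
    ∑ i ∈ range q, g (a + (i : ZMod m) * (d : ZMod m)) = g ((q : ZMod m) * a)
  eig : ∀ (u : (ZMod m)ˣ) (a : ZMod m), g ((u : ZMod m) * a) = (χ u)⁻¹ * g a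

lemma shift_unit {q d : ℕ} [NeZero m] (hq : q.Prime) (hqd : q * d = m) {x i : ℕ}
    (hx : ¬ q ∣ x) (hxi : ¬ q ∣ x + i * d) :
    ∃ u : (ZMod m)ˣ, ZMod.unitsMap (Dvd.intro_left q hqd : d ∣ m) u = 1 ∧
      (u : ZMod m) * (x : ZMod m) = (x : ZMod m) + (i : ZMod m) * (d : ZMod m) := by
  have := Fact.mk hq
  have hxq : (x : ZMod q) ≠ 0 := by
    rw [Ne, ZMod.natCast_eq_zero_iff]; exact hx
  obtain ⟨y, hy⟩ : ∃ y : ℕ, (x : ZMod q) * (y : ZMod q) = (i : ZMod q) := by
    refine ⟨((x : ZMod q)⁻¹ * (i : ZMod q)).val, ?_⟩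
    rw [ZMod.natCast_zmod_val, mul_inv_cancel_left₀ hxq]
  have hmod : (((1 + d * y) * x : ℕ) : ZMod q) = ((x + i * d : ℕ) : ZMod q) := by
    push_cast
    linear_combination (d : ZMod q) * hy
  have hqU : ¬ q ∣ 1 + d * y := by
    intro h
    apply hxi
    rw [← ZMod.natCast_eq_zero_iff, ← hmod]
    rw [ZMod.natCast_eq_zero_iff]
    exact h.mul_right x
  have hcopq : (1 + d * y).Coprime q := (hq.coprime_iff_not_dvd.mpr hqU).symm
  have hcopd : (1 + d * y).Coprime d := by
    simp
  have hcop : (1 + d * y).Coprime m := by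
    rw [← hqd]; exact Nat.Coprime.mul_right hcopq hcopd
  refine ⟨ZMod.unitOfCoprime _ hcop, ?_, ?_⟩
  · ext
    rw [ZMod.unitsMap_val, ZMod.coe_unitOfCoprime, ZMod.cast_natCast (Dvd.intro_left q hqd)]
    push_cast
    simp
  · rw [ZMod.coe_unitOfCoprime]
    have h1 : ((q * d : ℕ) : ZMod m) = 0 := by rw [hqd]; simp
    obtain ⟨z, hz⟩ : ∃ z : ℤ, (x : ℤ) * y - i = q * z := by
      have : (((x : ℤ) * y - i : ℤ) : ZMod q) = 0 := by
        push_cast; rw [hy]; ring
      rw [ZMod.intCast_zmod_eq_zero_iff_dvd] at this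
      exact this
    have hz' : (x : ZMod m) * y - i = q * (z : ZMod m) := by
      have := congrArg (Int.cast : ℤ → ZMod m) hz
      push_cast at this
      exact this
    push_cast at h1 ⊢
    linear_combination (d : ZMod m) * hz' + (z : ZMod m) * h1

/-- An eigendistribution is determined by its value at one element. -/
theorem exists_determining : ∀ (n m : ℕ) [NeZero m], m ≤ n → ∀ χ : DirichletCharacter ℂ m,
    ∃ a0 : ZMod m, ∀ g : ZMod m → ℂ, ED χ g → g a0 = 0 → ∀ a, g a = 0 := by
  intro n
  induction n with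
  | zero => intro m hm hle; exact absurd (Nat.le_zero.mp hle) hm.out
  | succ n ih =>
  intro m hmz hle χ
  by_cases hcase : ∃ q d : ℕ, q.Prime ∧ ∃ h : q * d = m, χ.FactorsThrough d
  · obtain ⟨q, d, hq, hqd, hfac⟩ := hcase
    have hd0 : 0 < d := Nat.pos_of_ne_zero (by rintro rfl; exact hmz.out (by rw [← hqd]; simp))
    have hdz : NeZero d := ⟨hd0.ne'⟩
    have hdn : d ≤ n := by
      have h2 := hq.two_le
      have : d < m := by rw [← hqd]; nlinarith
      omega
    have hdvd : d ∣ m := Dvd.intro_left q hqd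
    obtain ⟨hdvd', χ', hχ'⟩ := hfac
    obtain ⟨a0, ha0⟩ := ih d hdn χ'
    refine ⟨iota q a0, fun g hg hga0 => ?_⟩
    have hval : ∀ u : (ZMod m)ˣ, χ u = χ' ((ZMod.unitsMap hdvd u : (ZMod d)ˣ) : ZMod d) := by
      intro u
      rw [hχ', DirichletCharacter.changeLevel_eq_cast_of_dvd, ZMod.unitsMap_val]
    have hED : ED χ' (fun b : ZMod d => g (iota q b)) := by
      refine ⟨by rw [iota_zero, hg.zero], ?_, ?_⟩
      · intro r e hr hre a
        have h1 := hg.dist r (q * e) hr (by rw [← hqd, ← hre]; ring) (iota q a)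
        rw [iota_natMul hqd, ← h1]
        refine sum_congr rfl fun i _ => ?_
        congr 1
        rw [iota_add hqd]
        congr 1
        have : (i : ZMod d) * (e : ZMod d) = ((i * e : ℕ) : ZMod d) := by push_cast; rfl
        rw [this, iota_natCast hqd]
        push_cast; ring
      · intro u' a
        obtain ⟨u, hu⟩ := ZMod.unitsMap_surjective hdvd u'
        have h1 := hg.eig u (iota q a)
        rw [unit_iota hqd, hval, hu] at h1
        exact h1
    have hzero := ha0 _ hED hga0
    -- vanishing at multiples of q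
    have hmul : ∀ b : ZMod m, g ((q : ZMod m) * b) = 0 := by
      intro b
      have h1 : (q : ZMod m) * b = iota q (b.val : ZMod d) := by
        rw [iota_natCast hqd]; push_cast; rw [ZMod.natCast_zmod_val]
      rw [h1]
      exact hzero _
    intro a
    by_cases hqa : q ∣ a.val
    · obtain ⟨x, hx⟩ := hqa
      have h1 : a = (q : ZMod m) * (x : ZMod m) := by
        calc a = ((a.val : ℕ) : ZMod m) := (ZMod.natCast_zmod_val a).symm
          _ = _ := by rw [hx]; push_cast; ring
      rw [h1]; exact hmul _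
    · have hdist := hg.dist q d hq hqd a
      rw [hmul a] at hdist
      have hterm : ∀ i ∈ range q, g (a + (i : ZMod m) * (d : ZMod m)) =
          if q ∣ a.val + i * d then 0 else g a := by
        intro i _
        have ha : a = ((a.val : ℕ) : ZMod m) := (ZMod.natCast_zmod_val a).symm
        split_ifs with hi
        · obtain ⟨x, hx⟩ := hi
          have h1 : a + (i : ZMod m) * (d : ZMod m) = (q : ZMod m) * (x : ZMod m) := by
            calc a + (i : ZMod m) * (d : ZMod m) = ((a.val + i * d : ℕ) : ZMod m) := by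
                  push_cast; rw [ZMod.natCast_zmod_val]
              _ = _ := by rw [hx]; push_cast; ring
          rw [h1]; exact hmul _
        · obtain ⟨u, hu1, hu2⟩ := shift_unit hq hqd hqa hi
          rw [ZMod.natCast_zmod_val] at hu2
          rw [← hu2, hg.eig u a, hval, hu1]
          simp
      rw [sum_congr rfl hterm, Finset.sum_ite, Finset.sum_const_zero, zero_add, sum_const, nsmul_eq_mul] at hdist
      have hcard : (((range q).filter fun i => ¬ (q ∣ a.val + i * d)).card : ℂ) ≠ 0 := by
        have : 0 < ((range q).filter fun i => ¬ (q ∣ a.val + i * d)).card := by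
          apply Finset.card_pos.mpr
          exact ⟨0, by simp [hq.pos, hqa]⟩
        exact_mod_cast this.ne'
      exact (mul_eq_zero.mp hdist).resolve_left hcard
  · refine ⟨1, fun g hg h1 a => ?_⟩
    by_cases hua : IsUnit a
    · obtain ⟨u, rfl⟩ := hua
      have := hg.eig u 1
      rw [mul_one, h1, mul_zero] at this
      exact this
    · -- a common prime factor
      have hcop : ¬ a.val.Coprime m := by
        intro h
        apply hua
        have := (ZMod.isUnit_iff_coprime a.val m).mpr h
        rwa [ZMod.natCast_zmod_val] at this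
      obtain ⟨q, hq, hqa, hqm⟩ := Nat.Prime.not_coprime_iff_dvd.mp hcop
      obtain ⟨d, hd⟩ := hqm
      have hqd : q * d = m := hd.symm
      have hdvd : d ∣ m := Dvd.intro_left q hqd
      have hnf : ¬ χ.FactorsThrough d := fun h => hcase ⟨q, d, hq, hqd, h⟩
      rw [DirichletCharacter.factorsThrough_iff_ker_unitsMap hdvd] at hnf
      obtain ⟨u, hu1, hu2⟩ := SetLike.not_le_iff_exists.mp hnf
      rw [MonoidHom.mem_ker] at hu1 hu2
      have hχu : χ u ≠ 1 := by
        intro h
        apply hu2
        ext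
        rw [MulChar.coe_toUnitHom]
        exact h
      obtain ⟨b, hb⟩ := hqa
      have hua' : (u : ZMod m) * a = a := by
        have h2 : (((u : ZMod m).val : ℕ) : ZMod d) = ((1 : ℕ) : ZMod d) := by
          have h3 := congrArg (Units.val) hu1
          rw [ZMod.unitsMap_val] at h3
          rw [ZMod.natCast_val, h3]; simp
        have h4 : (((u : ZMod m).val * (q * b) : ℕ) : ZMod m) = ((q * b : ℕ) : ZMod m) := by
          rw [ZMod.natCast_eq_natCast_iff] at h2 ⊢
          have h5 : (q * ((u : ZMod m).val * b)) ≡ (q * (1 * b)) [MOD q * d] :=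
            Nat.ModEq.mul_left' q (h2.mul_right b)
          rw [hqd] at h5
          have e1 : (u : ZMod m).val * (q * b) = q * ((u : ZMod m).val * b) := by ring
          have e2 : q * b = q * (1 * b) := by ring
          rw [e1, e2]; exact h5
        have ha : a = ((q * b : ℕ) : ZMod m) := by
          rw [← hb, ZMod.natCast_zmod_val]
        calc (u : ZMod m) * a = (((u : ZMod m).val * (q * b) : ℕ) : ZMod m) := by
              rw [ha, Nat.cast_mul ((u : ZMod m).val), ZMod.natCast_zmod_val]
          _ = a := by rw [h4, ← ha]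
      have h6 := hg.eig u a
      rw [hua'] at h6
      have h7 : (1 - (χ u)⁻¹) * g a = 0 := by linear_combination h6
      refine (mul_eq_zero.mp h7).resolve_left fun h8 => hχu ?_
      have h9 : (χ u)⁻¹ = 1 := by linear_combination -h8
      exact inv_eq_one.mp h9

end Pool.Agent.H916D
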