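import Pool.Agent.H916D.Rational
import Pool.Agent.H916D.Defs
import Pool.Agent.H916T.Main

/-!
The theorem on systems of algebraic characters.
-/

namespace Pool.Agent.H916D

open Finset Pool.Agent.H916R2 Pool.Agent.H916T

/-- the base family -/
abbrev DBase (p M : ℕ) (t : Multiset (ZMod M)) : Prop :=
  SurfaceTate p M t ∨ ∃ q : ℕ, q.Prime ∧ q ∣ M ∧ Standard q M t

lemma dbase_good {p M : ℕ} [NeZero M] (s : Multiset (ZMod M))
    (h : DBase p M s) : (0 : ZMod M) ∉ s ∧ Even (Multiset.card s) := by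
  rcases h with h | ⟨q, _, h1, h2⟩
  · exact ⟨h.1.1, h.1.2.1⟩
  · exact h2.good h1

lemma dbase_neg {p M : ℕ} [NeZero M] (hp : p.Coprime M)
    (s : Multiset (ZMod M)) (h : DBase p M s) : DBase p M (s.map Neg.neg) := by
  rcases h with h | ⟨q, h0, h1, h2⟩
  · exact Or.inl (h.neg hp)
  · exact Or.inr ⟨q, h0, h1, h2.neg h1⟩

/-- the distribution relations for odd primes in the quotient -/
lemma dquotient_dist {p m N : ℕ} [NeZero (N * m)] {q d : ℕ} (hq : q.Prime) (hq2 : q ≠ 2)
    (hqd : q * d = m) (a : ZMod m) :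
    ∑ i ∈ range q, H916T.cQ (N * m) (DBase p (N * m)) (iota N (a + (i : ZMod m) * (d : ZMod m))) =
      H916T.cQ (N * m) (DBase p (N * m)) (iota N ((q : ZMod m) * a)) := by
  have hm0 : NeZero m := ⟨fun h => NeZero.ne (N * m) (by rw [h, mul_zero])⟩
  have hqM : q * (N * d) = N * m := by rw [← hqd]; ring
  have e1 : (iota N ((q : ZMod m) * a) : ZMod (N * m)) = (q : ZMod (N * m)) * iota N a :=
    iota_natMul rfl q a
  have e2 : ∀ i : ℕ, (iota N (a + (i : ZMod m) * (d : ZMod m)) : ZMod (N * m)) =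
      iota N a + (i : ZMod (N * m)) * ((N * d : ℕ) : ZMod (N * m)) := by
    intro i
    rw [iota_add rfl]
    congr 1
    have : (i : ZMod m) * (d : ZMod m) = ((i * d : ℕ) : ZMod m) := by push_cast; rfl
    rw [this, iota_natCast rfl]
    push_cast; ring
  simp only [e1, e2]
  by_cases htriv : 2 * ((q : ZMod (N * m)) * iota N a) = 0
  · rw [cQ_half (by rw [← two_mul]; exact htriv)]
    have h := eps_dist_trivial hq hqM (iota N a) htriv
    have h5 : ∑ i ∈ range q, H916T.cQ (N * m) (DBase p (N * m))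
        (iota N a + (i : ZMod (N * m)) * ((N * d : ℕ) : ZMod (N * m))) =
        QuotientAddGroup.mk (∑ i ∈ range q,
          eps (iota N a + (i : ZMod (N * m)) * ((N * d : ℕ) : ZMod (N * m)))) := by
      rw [QuotientAddGroup.mk_sum]
      rfl
    rw [h5, h, QuotientAddGroup.mk_zero]
  · have hne : (q : ZMod (N * m)) * iota N a ≠ 0 := fun h => htriv (by rw [h, mul_zero])
    have hMq : N * m / q = N * d := by
      rw [← hqM]; exact Nat.mul_div_cancel_left _ hq.pos
    have hstd : Standard q (N * m) (-((q : ZMod (N * m)) * iota N a) ::ₘ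
        (Multiset.range q).map fun i : ℕ =>
          iota N a + (i : ZMod (N * m)) * ((N * d : ℕ) : ZMod (N * m))) := by
      refine ⟨hq.odd_of_ne_two hq2, iota N a, hne, ?_⟩
      rw [hMq]
    have h := H916T.cQ_sum_eq_zero (H916T.Generated.ofBase (base := DBase p (N * m)) _
      (Or.inr ⟨q, hq, Dvd.intro _ hqM, hstd⟩))
    rw [Multiset.map_cons, Multiset.sum_cons, H916T.cQ_neg, Multiset.map_map] at h
    have h6 : ((Multiset.range q).map (H916T.cQ (N * m) (DBase p (N * m)) ∘
        fun i : ℕ => iota N a + (i : ZMod (N * m)) * ((N * d : ℕ) : ZMod (N * m)))).sum =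
        ∑ i ∈ range q, H916T.cQ (N * m) (DBase p (N * m))
          (iota N a + (i : ZMod (N * m)) * ((N * d : ℕ) : ZMod (N * m))) := rfl
    rw [h6] at h
    exact (neg_add_eq_zero.mp h).symm

/-- Every Tate character has a positive multiple which is generated. -/
theorem rationally_generated (p m : ℕ) (hp : p.Prime) (hm : 0 < m) (hpm : p.Coprime m) :
    ∃ N : ℕ, 0 < N ∧ p.Coprime N ∧ ∀ s : Multiset (ZMod m), IsTate p m s → s ≠ 0 →
      ∃ k : ℕ, 0 < k ∧ H916T.Generated (N * m) (DBase p (N * m))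
        (k • (s.map fun a => ((N * a.val : ℕ) : ZMod (N * m)))) := by
  have hmz : NeZero m := ⟨hm.ne'⟩
  set f := orderOf (p : ZMod m) with hfdef
  have hf0 : 0 < f := order_pos hpm
  have hpf : 1 < p ^ f := Nat.one_lt_pow hf0.ne' hp.one_lt
  obtain ⟨N, hN⟩ : ∃ N, p ^ f = N + 1 := ⟨p ^ f - 1, by omega⟩
  have hN0 : 0 < N := by omega
  have hmN : m ∣ N := by
    have h1 : ((p ^ f : ℕ) : ZMod m) = ((1 : ℕ) : ZMod m) := by
      push_cast; exact H916T.pow_order p
    rw [hN] at h1
    have h2 : ((N : ℕ) : ZMod m) = 0 := by push_cast at h1; linear_combination h1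
    rwa [ZMod.natCast_eq_zero_iff] at h2
  have hNz : NeZero (N * m) := ⟨Nat.mul_ne_zero hN0.ne' hm.ne'⟩
  have hpN : p.Coprime N := by
    rw [hp.coprime_iff_not_dvd]
    intro h
    have h1 : p ∣ N + 1 := by rw [← hN]; exact dvd_pow_self p hf0.ne'
    exact hp.one_lt.ne' (Nat.dvd_one.mp ((Nat.dvd_add_right h).mp h1))
  have hpM : p.Coprime (N * m) := Nat.Coprime.mul_right hpN hpm
  refine ⟨N, hN0, hpN, ?_⟩
  intro s hs hne
  obtain ⟨g, hg, hgp, hgs⟩ := exists_g (c := H916T.cQ (N * m) (DBase p (N * m))) hN hmN hpM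
    (fun a => H916T.cQ_neg a) (fun a ha => H916T.cQ_half ha)
    (fun t ht => H916T.cQ_sum_eq_zero (H916T.Generated.ofBase t (Or.inl ht)))
    (fun q d hq hq2 hqd a => dquotient_dist hq hq2 hqd a)
  obtain ⟨k, hk, hsum⟩ := torsion_sum hpm hg hgp s (fun t => hs.W_sum hpm t)
  refine ⟨k, hk, ?_⟩
  have h0 : (0 : ZMod (N * m)) ∉ s.map (iota N : ZMod m → ZMod (N * m)) := by
    intro h'
    obtain ⟨b, hb, hb0⟩ := Multiset.mem_map.mp h'
    rw [iota_eq_zero rfl hb0] at hb
    exact hs.1 hb
  apply H916T.generated_of_cQ_sum (fun t ht => dbase_good t ht) (fun t ht => dbase_neg hpM t ht)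
  · intro h
    exact h0 (Multiset.mem_of_mem_nsmul h)
  · rw [Multiset.card_nsmul, Multiset.card_map]; exact hs.2.1.mul_left k
  · intro h
    have h1 := congrArg Multiset.card h
    rw [Multiset.card_nsmul, Multiset.card_map, Multiset.card_zero] at h1
    rcases Nat.mul_eq_zero.mp h1 with h2 | h2
    · omega
    · exact hne (Multiset.card_eq_zero.mp h2)
  · have h1 := hgs s hs.2.2.1
    rw [Multiset.map_nsmul, Multiset.sum_nsmul, Multiset.map_map]
    have h2 : (s.map (H916T.cQ (N * m) (DBase p (N * m)) ∘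
        fun a => ((N * a.val : ℕ) : ZMod (N * m)))).sum = (s.map g).sum := h1
    rw [h2, hsum]

section

variable {p : ℕ} {A : (m : ℕ) → Multiset (ZMod m) → Prop}

lemma algebraic_of_generated (hA : AlgebraicSystem p A) {M : ℕ} [NeZero M] (hp : p.Coprime M)
    {t : Multiset (ZMod M)} (ht : H916T.Generated M (DBase p M) t) : t ≠ 0 → A M t := by
  induction ht with
  | ofBase s hs =>
    intro _
    rcases hs with h | ⟨q, hq, hqM, h⟩
    · exact hA.surface M s hp h
    · exact hA.standard q M s hq hqM hp h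
  | pair a ha => intro _; exact hA.pair M a hp ha
  | join s t hs ht ihs iht =>
    intro hne
    by_cases hs0 : s = 0
    · subst hs0
      rw [zero_add] at hne ⊢
      exact iht hne
    · by_cases ht0 : t = 0
      · subst ht0
        rw [add_zero] at hne ⊢
        exact ihs hne
      · exact hA.join M s t hp (ihs hs0) (iht ht0)
  | cancel a s h ih =>
    intro hne
    have hgood := h.good (fun t ht => dbase_good t ht)
    have ha : a ≠ 0 := fun h' => hgood.1 (by rw [h']; exact Multiset.mem_cons_self _ _)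
    exact hA.cancel M a s hp ha hne (ih (Multiset.cons_ne_zero))

lemma algebraic_cancel (hA : AlgebraicSystem p A) {M : ℕ} (hp : p.Coprime M)
    (t : Multiset (ZMod M)) (ht : t ≠ 0) (u : Multiset (ZMod M)) (h0 : (0 : ZMod M) ∉ u)
    (h : A M (u + u.map Neg.neg + t)) : A M t := by
  induction u using Multiset.induction_on with
  | empty => simpa using h
  | cons a u ih =>
    have ha : a ≠ 0 := fun h' => h0 (by rw [h']; exact Multiset.mem_cons_self _ _)
    apply ih (fun h' => h0 (Multiset.mem_cons_of_mem h'))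
    apply hA.cancel M a _ hp ha
    · intro h'
      exact ht (add_eq_zero.mp h').2
    · rw [Multiset.map_cons, Multiset.cons_add, Multiset.add_cons, Multiset.cons_add,
        Multiset.cons_add] at h
      exact h

lemma algebraic_nsmul (hA : AlgebraicSystem p A) {M : ℕ} (hp : p.Coprime M)
    {s : Multiset (ZMod M)} (hs : A M s) (k : ℕ) (hk : 0 < k) : A M (k • s) := by
  obtain ⟨j, rfl⟩ : ∃ j, k = j + 1 := ⟨k - 1, by omega⟩
  clear hk
  induction j with
  | zero => simpa using hs
  | succ j ih =>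
    rw [succ_nsmul]
    exact hA.join M _ _ hp ih hs

theorem algebraic_neg (hp : p.Prime) (hA : AlgebraicSystem p A) (m : ℕ) (hpm : p.Coprime m)
    (s : Multiset (ZMod m)) (hs : A m s) : A m (s.map Neg.neg) := by
  have hm : 0 < m := by
    apply Nat.pos_of_ne_zero
    rintro rfl
    rw [Nat.coprime_zero_right] at hpm
    exact hp.one_lt.ne' hpm
  have hmz : NeZero m := ⟨hm.ne'⟩
  by_cases hs0 : s = 0
  · subst hs0; simpa using hs
  obtain ⟨N, hN0, hpN, hgen⟩ := rationally_generated p m hp hm hpm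
  have hNz : NeZero (N * m) := ⟨Nat.mul_ne_zero hN0.ne' hm.ne'⟩
  have hpM : p.Coprime (N * m) := Nat.Coprime.mul_right hpN hpm
  have hT := hA.tate m s hpm hs
  obtain ⟨k, hk, hkg⟩ := hgen s hT hs0
  set s' : Multiset (ZMod (N * m)) := s.map fun a => ((N * a.val : ℕ) : ZMod (N * m)) with hs'
  have hs'A : A (N * m) s' := (hA.raise N m s hm hN0 hpM).mp hs
  have hs'0 : s' ≠ 0 := by
    intro h
    exact hs0 (Multiset.map_eq_zero.mp h)
  have h0s' : (0 : ZMod (N * m)) ∉ s' := (hA.tate _ s' hpM hs'A).1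
  have hneg0 : s'.map Neg.neg ≠ 0 := fun h => hs'0 (Multiset.map_eq_zero.mp h)
  -- the negative of the multiple
  have hkn : A (N * m) (k • (s'.map Neg.neg)) := by
    rw [← Multiset.map_nsmul]
    apply algebraic_of_generated hA hpM
    · exact hkg.neg (fun t ht => dbase_neg hpM t ht)
    · intro h
      have h1 := congrArg Multiset.card h
      rw [Multiset.card_map, Multiset.card_nsmul, Multiset.card_zero] at h1
      rcases Nat.mul_eq_zero.mp h1 with h2 | h2
      · omega
      · exact hs'0 (Multiset.card_eq_zero.mp h2)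
  have hfin : A (N * m) (s'.map Neg.neg) := by
    obtain ⟨j, rfl⟩ : ∃ j, k = j + 1 := ⟨k - 1, by omega⟩
    rcases Nat.eq_zero_or_pos j with rfl | hj
    · simpa using hkn
    · apply algebraic_cancel hA hpM _ hneg0 (j • s')
      · intro h; exact h0s' (Multiset.mem_of_mem_nsmul h)
      · have h1 := hA.join _ _ _ hpM (algebraic_nsmul hA hpM hs'A j hj) hkn
        rw [succ_nsmul, ← add_assoc] at h1
        rw [Multiset.map_nsmul]
        exact h1
  rw [hA.raise N m _ hm hN0 hpM]
  have hmap : ((s.map Neg.neg).map fun a => ((N * a.val : ℕ) : ZMod (N * m))) =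
      s'.map Neg.neg := by
    rw [hs', Multiset.map_map, Multiset.map_map]
    apply Multiset.map_congr rfl
    intro a _
    exact iota_neg rfl a
  rw [hmap]
  exact hfin

end

end Pool.Agent.H916D
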