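import Pool.Agent.H916D.Eigen

/-!
Rational generation of the Tate characters.
-/

namespace Pool.Agent.H916D

open Finset Pool.Agent.H916R2 Pool.Agent.H916T

variable {m : ℕ}

lemma od_dist {g : ZMod m → ℂ} (hg : OD g) {q d : ℕ} (hq : q.Prime) (hqd : q * d = m)
    (a : ZMod m) : ∑ i ∈ range q, g (a + (i : ZMod m) * (d : ZMod m)) = g ((q : ZMod m) * a) := by
  by_cases h2 : q = 2
  · subst h2
    have h := hg.two d hqd a
    have hh := hg.half hqd
    have h3 : g (d : ZMod m) = 0 := by
      have : 2 * g (d : ZMod m) = 0 := by linear_combination hh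
      simpa using this
    rw [h3, add_zero] at h
    rw [sum_range_succ, sum_range_one]
    simpa using h
  · exact hg.odd q d hq h2 hqd a

variable [NeZero m]

/-- the isotypic part of a function -/
noncomputable def iso (χ : DirichletCharacter ℂ m) (g : ZMod m → ℂ) (a : ZMod m) : ℂ :=
  ∑ t : (ZMod m)ˣ, χ t * g ((t : ZMod m) * a)

lemma iso_unit (χ : DirichletCharacter ℂ m) (g : ZMod m → ℂ) (u : (ZMod m)ˣ) (a : ZMod m) :
    iso χ g ((u : ZMod m) * a) = (χ u)⁻¹ * iso χ g a := by
  unfold iso
  rw [mul_sum, ← Equiv.sum_comp (Equiv.mulRight u⁻¹)]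
  refine sum_congr rfl fun t _ => ?_
  simp only [Equiv.coe_mulRight, Units.val_mul, map_mul]
  have h1 : (χ u) * χ ((u⁻¹ : (ZMod m)ˣ) : ZMod m) = 1 := by
    rw [← map_mul]; simp
  have h2 : χ ((u⁻¹ : (ZMod m)ˣ) : ZMod m) = (χ u)⁻¹ := by
    exact (inv_eq_of_mul_eq_one_right h1).symm
  rw [h2]
  have h3 : (t : ZMod m) * ((u⁻¹ : (ZMod m)ˣ) : ZMod m) * ((u : ZMod m) * a) = (t : ZMod m) * a := by
    have : ((u⁻¹ : (ZMod m)ˣ) : ZMod m) * (u : ZMod m) = 1 := by simp
    linear_combination (t : ZMod m) * a * this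
  rw [h3]
  ring

lemma iso_ED (χ : DirichletCharacter ℂ m) {g : ZMod m → ℂ} (hg : OD g) : ED χ (iso χ g) := by
  refine ⟨?_, ?_, fun u a => iso_unit χ g u a⟩
  · unfold iso; simp [hg.zero]
  · intro q d hq hqd a
    unfold iso
    rw [sum_comm]
    refine sum_congr rfl fun t _ => ?_
    rw [← mul_sum]
    congr 1
    have h1 := coset_sum_unit (m := m) (fun x => g x) hqd t a
    rw [h1, od_dist hg hq hqd]
    congr 1
    ring

lemma SS_ED (χ : DirichletCharacter ℂ m) : ED χ (SS χ) :=
  ⟨(od_SS χ).zero, fun _ _ _ hqd a => SS_dist χ hqd a, fun u a => SS_unit χ u a⟩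

/-- for odd characters the isotypic part is a multiple of the Stickelberger sum -/
lemma exists_const (χ : DirichletCharacter ℂ m) (hχ : χ.Odd) {g : ZMod m → ℂ} (hg : ED χ g) :
    ∃ κ : ℂ, ∀ a, g a = κ * SS χ a := by
  obtain ⟨a0, ha0⟩ := exists_determining m m le_rfl χ
  have hne : SS χ a0 ≠ 0 := by
    intro h
    obtain ⟨a, ha⟩ := exists_SS_ne_zero χ hχ
    exact ha (ha0 _ (SS_ED χ) h a)
  refine ⟨g a0 / SS χ a0, fun a => ?_⟩
  have hED : ED χ (fun a => g a - g a0 / SS χ a0 * SS χ a) := by
    refine ⟨by simp [hg.zero, (od_SS χ).zero], ?_, ?_⟩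
    · intro q d hq hqd a
      rw [sum_sub_distrib, ← mul_sum, hg.dist q d hq hqd, SS_dist χ hqd]
    · intro u a
      rw [hg.eig, SS_unit]; ring
  have := ha0 _ hED (by field_simp; ring) a
  linear_combination this

/-- Complex valued invariant odd distributions kill the Tate relations. -/
theorem complex_sum {p : ℕ} (hp : p.Coprime m) {g : ZMod m → ℂ} (hg : OD g)
    (hgp : ∀ a, g ((p : ZMod m) * a) = g a) (s : Multiset (ZMod m))
    (hs : ∀ t : (ZMod m)ˣ, (s.map fun a => W p ((t : ZMod m) * a)).sum = 0) :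
    (s.map g).sum = 0 := by
  classical
  set P : (ZMod m)ˣ := (H916T.isUnit_p hp).unit with hP
  have hPv : ((P : (ZMod m)ˣ) : ZMod m) = (p : ZMod m) := IsUnit.unit_spec _
  have hneg : ∀ (χ : DirichletCharacter ℂ m) a, iso χ g (-a) = - iso χ g a := by
    intro χ a
    unfold iso
    rw [← sum_neg_distrib]
    refine sum_congr rfl fun t _ => ?_
    rw [mul_neg, hg.neg]; ring
  have key : ∀ χ : DirichletCharacter ℂ m, (s.map (iso χ g)).sum = 0 := by
    intro χ
    rcases χ.even_or_odd with he | ho
    · have hz : ∀ a, iso χ g a = 0 := by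
        intro a
        have h1 := iso_unit χ g (-1) a
        have h2 : χ (-1 : ZMod m) = 1 := he
        rw [Units.val_neg, Units.val_one, neg_one_mul, hneg, h2, inv_one, one_mul] at h1
        have : 2 * iso χ g a = 0 := by linear_combination -h1
        simpa using this
      simp [hz]
    · by_cases hχp : χ (p : ZMod m) = 1
      · obtain ⟨κ, hκ⟩ := exists_const χ ho (iso_ED χ hg)
        have h1 : (s.map (iso χ g)).sum = κ * (s.map (SS χ)).sum := by
          rw [← Multiset.sum_map_mul_left]
          congr 1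
          exact Multiset.map_congr rfl fun a _ => hκ a
        have h2 : ∑ t : (ZMod m)ˣ, χ t * (((s.map fun a => W p ((t : ZMod m) * a)).sum : ℤ) : ℂ)
            = 0 := by
          apply sum_eq_zero
          intro t _
          rw [hs t]; simp
        have h3 : ∀ a : ZMod m, ∑ t : (ZMod m)ˣ, χ t * ((W p ((t : ZMod m) * a) : ℤ) : ℂ) =
            (orderOf (p : ZMod m) : ℂ) * SS χ a := by
          intro a
          have h4 : ∀ t : (ZMod m)ˣ, χ t * ((W p ((t : ZMod m) * a) : ℤ) : ℂ) =
              ∑ j ∈ range (orderOf (p : ZMod m)), χ t *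
                ((saw ((t : ZMod m) * (((P ^ j : (ZMod m)ˣ) : ZMod m) * a)) : ℤ) : ℂ) := by
            intro t
            unfold W
            rw [Int.cast_sum, mul_sum]
            refine sum_congr rfl fun j _ => ?_
            congr 3
            rw [Units.val_pow_eq_pow_val, hPv]
            ring
          rw [sum_congr rfl fun t _ => h4 t, sum_comm]
          have h5 : ∀ j ∈ range (orderOf (p : ZMod m)), ∑ t : (ZMod m)ˣ, χ t *
                ((saw ((t : ZMod m) * (((P ^ j : (ZMod m)ˣ) : ZMod m) * a)) : ℤ) : ℂ) =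
              SS χ a := by
            intro j _
            have h6 := SS_unit χ (P ^ j) a
            have h7 : χ ((P ^ j : (ZMod m)ˣ) : ZMod m) = 1 := by
              rw [Units.val_pow_eq_pow_val, hPv, map_pow, hχp, one_pow]
            rw [h7, inv_one, one_mul] at h6
            rw [← h6]
            rfl
          rw [sum_congr rfl h5, sum_const, card_range, nsmul_eq_mul]
        have h4 : ∀ s : Multiset (ZMod m),
            ∑ t : (ZMod m)ˣ, χ t * (((s.map fun a => W p ((t : ZMod m) * a)).sum : ℤ) : ℂ) =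
              (orderOf (p : ZMod m) : ℂ) * (s.map (SS χ)).sum := by
          intro s
          induction s using Multiset.induction_on with
          | empty => simp
          | cons a s ih =>
            simp only [Multiset.map_cons, Multiset.sum_cons, Int.cast_add, mul_add,
              sum_add_distrib]
            rw [ih, h3]
        rw [h4 s] at h2
        have h5 : (orderOf (p : ZMod m) : ℂ) ≠ 0 := by
          exact_mod_cast (order_pos hp).ne'
        rw [h1, (mul_eq_zero.mp h2).resolve_left h5, mul_zero]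
      · have hz : ∀ a, iso χ g a = 0 := by
          intro a
          have h1 := iso_unit χ g P a
          rw [hPv] at h1
          have h2 : iso χ g ((p : ZMod m) * a) = iso χ g a := by
            unfold iso
            refine sum_congr rfl fun t _ => ?_
            rw [← hgp ((t : ZMod m) * a)]
            congr 2
            ring
          rw [h2] at h1
          have h7 : (1 - (χ (p : ZMod m))⁻¹) * iso χ g a = 0 := by linear_combination h1
          refine (mul_eq_zero.mp h7).resolve_left fun h8 => hχp ?_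
          have h9 : (χ (p : ZMod m))⁻¹ = 1 := by linear_combination -h8
          exact inv_eq_one.mp h9
        simp [hz]
  have hinv : ∀ a, ∑ χ : DirichletCharacter ℂ m, iso χ g a = (Nat.totient m : ℂ) * g a := by
    intro a
    unfold iso
    rw [sum_comm]
    have h1 : ∀ t : (ZMod m)ˣ, ∑ χ : DirichletCharacter ℂ m, χ t * g ((t : ZMod m) * a) =
        if t = 1 then (Nat.totient m : ℂ) * g a else 0 := by
      intro t
      rw [← sum_mul, DirichletCharacter.sum_characters_eq]
      by_cases ht : t = 1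
      · subst ht; simp
      · have ht' : (t : ZMod m) ≠ 1 := fun h => ht (Units.ext (by rw [h, Units.val_one]))
        rw [if_neg ht', if_neg ht, zero_mul]
    rw [sum_congr rfl fun t _ => h1 t]
    simp
  have hfin : ∀ s : Multiset (ZMod m), ∑ χ : DirichletCharacter ℂ m, (s.map (iso χ g)).sum =
      (Nat.totient m : ℂ) * (s.map g).sum := by
    intro s
    induction s using Multiset.induction_on with
    | empty => simp
    | cons a s ih =>
      simp only [Multiset.map_cons, Multiset.sum_cons, sum_add_distrib, mul_add]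
      rw [ih, hinv]
  have h1 := hfin s
  rw [sum_eq_zero fun χ _ => key χ] at h1
  have hφ : (Nat.totient m : ℂ) ≠ 0 := by
    exact_mod_cast (Nat.totient_pos.mpr (NeZero.pos m)).ne'
  exact (mul_eq_zero.mp h1.symm).resolve_left hφ

omit [NeZero m] in
lemma OD.map {Q R : Type*} [AddCommGroup Q] [AddCommGroup R] (φ : Q →+ R) {g : ZMod m → Q}
    (hg : OD g) : OD (fun a => φ (g a)) where
  neg := fun a => by rw [hg.neg, map_neg]
  zero := by rw [hg.zero, map_zero]
  odd := fun q d hq hq2 hqd a => by rw [← map_sum, hg.odd q d hq hq2 hqd]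
  two := fun d hd a => by rw [← map_add, hg.two d hd, map_add]

lemma exists_hom_ne_zero {Q : Type*} [AddCommGroup Q] (x : Q) (hx : ∀ k : ℕ, 0 < k → k • x ≠ 0) :
    ∃ φ : Q →+ ℂ, φ x ≠ 0 := by
  let f : Q →ₗ[ℤ] TensorProduct ℤ ℚ Q := TensorProduct.mk ℤ ℚ Q 1
  have hf : IsLocalizedModule (nonZeroDivisors ℤ) f :=
    (isLocalizedModule_iff_isBaseChange (nonZeroDivisors ℤ) ℚ f).mpr (TensorProduct.isBaseChange ℤ Q ℚ)
  have h1 : f x ≠ 0 := by
    intro h
    rw [IsLocalizedModule.eq_zero_iff (nonZeroDivisors ℤ) f] at h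
    obtain ⟨c, hc⟩ := h
    have hc0 : (c : ℤ) ≠ 0 := nonZeroDivisors.ne_zero c.2
    have hc' : (c : ℤ) • x = 0 := hc
    apply hx (c : ℤ).natAbs (Int.natAbs_pos.mpr hc0)
    rcases Int.natAbs_eq (c : ℤ) with h | h
    · rw [h, natCast_zsmul] at hc'; exact hc'
    · rw [h, neg_smul, natCast_zsmul, neg_eq_zero] at hc'; exact hc'
  obtain ⟨ψ, hψ⟩ : ∃ ψ : Module.Dual ℚ (TensorProduct ℤ ℚ Q), ψ (f x) ≠ 0 := by
    by_contra hcon
    push Not at hcon
    exact h1 ((Module.forall_dual_apply_eq_zero_iff ℚ (f x)).mp hcon)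
  refine ⟨((Rat.castHom ℂ).toAddMonoidHom.comp ψ.toAddMonoidHom).comp f.toAddMonoidHom, ?_⟩
  intro h
  apply hψ
  have : ((ψ (f x) : ℚ) : ℂ) = 0 := h
  exact_mod_cast this

/-- In general the relations become trivial after multiplication by a positive integer. -/
theorem torsion_sum {p : ℕ} (hp : p.Coprime m) {Q : Type*} [AddCommGroup Q] {g : ZMod m → Q}
    (hg : OD g) (hgp : ∀ a, g ((p : ZMod m) * a) = g a) (s : Multiset (ZMod m))
    (hs : ∀ t : (ZMod m)ˣ, (s.map fun a => W p ((t : ZMod m) * a)).sum = 0) :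
    ∃ k : ℕ, 0 < k ∧ k • (s.map g).sum = 0 := by
  by_contra hcon
  push Not at hcon
  obtain ⟨φ, hφ⟩ := exists_hom_ne_zero _ hcon
  apply hφ
  have h1 := complex_sum hp (OD.map φ hg) (fun a => by rw [hgp]) s hs
  rw [map_multiset_sum, Multiset.map_map]
  exact h1

end Pool.Agent.H916D
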