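import Pool.Agent.H916D.SignDefs
import Pool.Agent.H916D.Main
import Pool.Agent.H916U.Main

/-!
Positivity in systems of signs.
-/

namespace Pool.Agent.H916D

open Finset Pool.Agent.H916R2 Pool.Agent.H916T Pool.Agent.H916U

variable {p : ℕ} {A : (m : ℕ) → Multiset (ZMod m) → Prop}
  {σ : (m : ℕ) → Multiset (ZMod m) → ℤˣ}

lemma sign_of_generated (hA : SignSystem p A σ) {m M : ℕ} [NeZero M] (hmM : m ∣ M)
    (hp : p.Coprime M) {t : Multiset (ZMod M)} (ht : H916T.Generated M (UBase p m M) t) :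
    t ≠ 0 → A M t ∧ σ M t = 1 := by
  induction ht with
  | ofBase s hs =>
    intro _
    rcases hs with h | ⟨q, hq, hqm, h⟩
    · exact ⟨hA.algebraic.surface M s hp h, hA.surface M s hp h⟩
    · exact ⟨hA.algebraic.standard q M s hq (dvd_trans hqm hmM) hp h,
        hA.standard q M s hq (dvd_trans hqm hmM) hp h⟩
  | pair a ha => intro _; exact ⟨hA.algebraic.pair M a hp ha, hA.pair M a hp ha⟩
  | join s t hs ht ihs iht =>
    intro hne
    by_cases hs0 : s = 0
    · subst hs0
      rw [zero_add] at hne ⊢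
      exact iht hne
    · by_cases ht0 : t = 0
      · subst ht0
        rw [add_zero] at hne ⊢
        exact ihs hne
      · obtain ⟨h1, h2⟩ := ihs hs0
        obtain ⟨h3, h4⟩ := iht ht0
        refine ⟨hA.algebraic.join M s t hp h1 h3, ?_⟩
        rw [hA.join M s t hp h1 h3, h2, h4, one_mul]
  | cancel a s h ih =>
    intro hne
    have hgood := h.good (fun t ht => ubase_good hmM t ht)
    have ha : a ≠ 0 := fun h' => hgood.1 (by rw [h']; exact Multiset.mem_cons_self _ _)
    obtain ⟨h1, h2⟩ := ih (Multiset.cons_ne_zero)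
    have h3 := hA.algebraic.cancel M a s hp ha hne h1
    refine ⟨h3, ?_⟩
    have h4 : a ::ₘ -a ::ₘ s = {a, -a} + s := by
      rw [Multiset.insert_eq_cons, Multiset.cons_add, Multiset.singleton_add]
    rw [h4, hA.join M _ s hp (hA.algebraic.pair M a hp ha) h3, hA.pair M a hp ha, one_mul] at h2
    exact h2

theorem sign_main (hp : p.Prime) (hA : SignSystem p A σ) (m m' e : ℕ) (hm : 0 < m)
    (he : e * m' = m) (hcase : e = 1 ∨ (e = 2 ∧ ¬ 2 ∣ m')) (hpm : p.Coprime m)
    (hC : Cond p m') (s : Multiset (ZMod m)) (hs : IsTate p m s) (hne : s ≠ 0) :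
    A m s ∧ σ m s = 1 := by
  obtain ⟨N, hN0, hpN, hgen⟩ := H916U.main p m m' e hp hm he hcase hpm hC
  have hNz : NeZero (N * m) := ⟨Nat.mul_ne_zero hN0.ne' hm.ne'⟩
  have hpM : p.Coprime (N * m) := Nat.Coprime.mul_right hpN hpm
  have hmM : m ∣ N * m := Dvd.intro_left N rfl
  obtain ⟨h1, h2⟩ := sign_of_generated hA hmM hpM (hgen s hs hne)
    (fun h => hne (Multiset.map_eq_zero.mp h))
  have h3 := (hA.algebraic.raise N m s hm hN0 hpM).mpr h1
  exact ⟨h3, by rw [← hA.raise N m s hm hN0 hpM h3, h2]⟩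

end Pool.Agent.H916D
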