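import Pool.Agent.H916D.Defs

/-!
# Signs of the intersection form on the eigenlines of algebraic classes

For an algebraic character `s` (see `AlgebraicSystem`) with `n + 2` entries let `σ m s` be the sign
of the hermitian form `(-1) ^ (n / 2) * (x, x̄)` on the eigenline of `s` in the space of primitive
algebraic classes of the Fermat variety of degree `m` and dimension `n` in characteristic `p`. The
known properties of these signs are collected in the following structure.
-/

namespace Pool.Agent.H916D

open Pool.Agent.H916T

/-- A system `A` of algebraic characters in characteristic `p` with signs `σ`: the sign is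
multiplicative for unions, it is `1` for the pairs `{a, -a}` (dimension zero), for the Tate
characters with four entries (Hodge index theorem for surfaces) and for the standard characters of
Aoki (whose cycles lift to characteristic zero), and it does not change when the degree is raised
from `m` to `N * m`. -/
structure SignSystem (p : ℕ) (A : (m : ℕ) → Multiset (ZMod m) → Prop)
    (σ : (m : ℕ) → Multiset (ZMod m) → ℤˣ) : Prop where
  algebraic : AlgebraicSystem p A
  join : ∀ (m : ℕ) (s t : Multiset (ZMod m)), p.Coprime m → A m s → A m t →
    σ m (s + t) = σ m s * σ m t
  pair : ∀ (m : ℕ) (a : ZMod m), p.Coprime m → a ≠ 0 → σ m {a, -a} = 1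
  surface : ∀ (m : ℕ) (s : Multiset (ZMod m)), p.Coprime m → SurfaceTate p m s → σ m s = 1
  standard : ∀ (q m : ℕ) (s : Multiset (ZMod m)), q.Prime → q ∣ m → p.Coprime m →
    Standard q m s → σ m s = 1
  raise : ∀ (N m : ℕ) (s : Multiset (ZMod m)), 0 < m → 0 < N → p.Coprime (N * m) → A m s →
    σ (N * m) (s.map fun a => ((N * a.val : ℕ) : ZMod (N * m))) = σ m s

end Pool.Agent.H916D
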